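import Mathlib

/-!
The three sharp constants `c_W`, `c_P`, `c_V` for Hausdorff approximation by the
Gauss–Weierstrass, Abel–Poisson and de la Vallée-Poussin operators are all infinite.
-/

open Filter Topology MeasureTheory Set
open scoped ENNReal NNReal Nat

namespace Pool.Agent.Results.MP_fbd0a7_an.Infinite

/-! ### Definitions used in the statement -/

/-- The completed graph of `f`: all `(x, y)` with `I(f;x) ≤ y ≤ S(f;x)`, where
`S(f;x) = lim_{δ → 0} sup {f t : |t - x| < δ}` and `I(f;x) = lim_{δ → 0} inf {f t : |t - x| < δ}`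
are written as limit superior and limit inferior of `f` along the (unpunctured) neighbourhoods
of `x`. -/
def completedGraph (f : ℝ → ℝ) : Set (ℝ × ℝ) :=
  {p | liminf f (𝓝 p.1) ≤ p.2 ∧ p.2 ≤ limsup f (𝓝 p.1)}

/-- `ρ_α(A, B) = max (α⁻¹ |x - ξ|) |y - η|`. -/
noncomputable def rho (α : ℝ) (A B : ℝ × ℝ) : ℝ := max (α⁻¹ * |A.1 - B.1|) |A.2 - B.2|

/-- The Hausdorff distance `r(α; f, g)` of the completed graphs, with values in `[0, ∞]`. -/
noncomputable def hDist (α : ℝ) (f g : ℝ → ℝ) : ℝ≥0∞ :=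
  max (⨆ A ∈ completedGraph f, ⨅ B ∈ completedGraph g, ENNReal.ofReal (rho α A B))
    (⨆ A ∈ completedGraph g, ⨅ B ∈ completedGraph f, ENNReal.ofReal (rho α A B))

/-- The Gauss–Weierstrass operator. -/
noncomputable def W (n : ℕ) (f : ℝ → ℝ) (x : ℝ) : ℝ :=
  √(n / Real.pi) * ∫ t, f t * Real.exp (-(n : ℝ) * (t - x) ^ 2)

/-- The Abel–Poisson operator. -/
noncomputable def P (ρ : ℝ) (f : ℝ → ℝ) (x : ℝ) : ℝ :=
  1 / (2 * Real.pi) *
    ∫ t in (-Real.pi)..Real.pi, f (x - t) * ((1 - ρ ^ 2) / (1 - 2 * ρ * Real.cos t + ρ ^ 2))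

/-- The de la Vallée-Poussin operator. -/
noncomputable def V (n : ℕ) (f : ℝ → ℝ) (x : ℝ) : ℝ :=
  (n ! : ℝ) ^ 2 / (2 * Real.pi * (2 * n)!) *
    ∫ t in (-Real.pi)..Real.pi, f (x - t) * (2 * Real.cos (t / 2)) ^ (2 * n)

/-- `limsup_{n → ∞} α n^{1/2} r(α; f, W_n f)`. -/
noncomputable def limW (α : ℝ) (f : ℝ → ℝ) : ℝ≥0∞ :=
  limsup (fun n : ℕ => ENNReal.ofReal (α * √(n : ℝ)) * hDist α f (W n f)) atTop

/-- `limsup_{ρ → 1⁻} (α / (1 - ρ)) r(α; f, P_ρ f)`. -/
noncomputable def limP (α : ℝ) (f : ℝ → ℝ) : ℝ≥0∞ :=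
  limsup (fun ρ : ℝ => ENNReal.ofReal (α / (1 - ρ)) * hDist α f (P ρ f)) (𝓝[<] 1)

/-- `limsup_{n → ∞} α n^{1/2} r(α; f, V_n f)`. -/
noncomputable def limV (α : ℝ) (f : ℝ → ℝ) : ℝ≥0∞ :=
  limsup (fun n : ℕ => ENNReal.ofReal (α * √(n : ℝ)) * hDist α f (V n f)) atTop

/-- `c_W^*`: the supremum, in `[0, ∞]`, of all real `c ≥ 0` such that every bounded Lebesgue
measurable (`NullMeasurable` for `volume`) `f` with `limW α f < c` is continuous. -/
noncomputable def cW (α : ℝ) : ℝ≥0∞ :=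
  ⨆ (c : ℝ≥0) (_ : ∀ f : ℝ → ℝ, (∃ M : ℝ, ∀ x, |f x| ≤ M) → NullMeasurable f volume →
    limW α f < c → Continuous f), (c : ℝ≥0∞)

/-- `c_P^*`: the supremum, in `[0, ∞]`, of all real `c ≥ 0` such that every bounded Lebesgue
measurable `2π`-periodic `f` with `limP α f < c` is continuous. -/
noncomputable def cP (α : ℝ) : ℝ≥0∞ :=
  ⨆ (c : ℝ≥0) (_ : ∀ f : ℝ → ℝ, (∃ M : ℝ, ∀ x, |f x| ≤ M) → NullMeasurable f volume →
    Function.Periodic f (2 * Real.pi) → limP α f < c → Continuous f), (c : ℝ≥0∞)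

/-- `c_V^*`: the supremum, in `[0, ∞]`, of all real `c ≥ 0` such that every bounded Lebesgue
measurable `2π`-periodic `f` with `limV α f < c` is continuous. -/
noncomputable def cV (α : ℝ) : ℝ≥0∞ :=
  ⨆ (c : ℝ≥0) (_ : ∀ f : ℝ → ℝ, (∃ M : ℝ, ∀ x, |f x| ≤ M) → NullMeasurable f volume →
    Function.Periodic f (2 * Real.pi) → limV α f < c → Continuous f), (c : ℝ≥0∞)

/-! ### The general kernel argument -/

lemma overlap_bound (k : ℝ → ℝ) (hk0 : ∀ t, 0 ≤ k t) (hki : Integrable k) (hk1 : ∫ t, k t ≤ 1)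
    (f : ℝ → ℝ) (M : ℝ) (hM : ∀ x, |f x| ≤ M) (hfm : AEMeasurable f)
    (x0 η r a b U L κ : ℝ) (hr : 0 < r) (hrη : r ≤ η / 2) (ha : |a - x0| < r)
    (hb : |b - x0| < r) (hLU : L ≤ U)
    (hU : ∀ s, |s - x0| < η → f s ≤ U) (hL : ∀ s, |s - x0| < η → L ≤ f s)
    (hlow : ∀ t, |t| ≤ 2 * r → κ ≤ k t) :
    (∫ s, f s * k (a - s)) - (∫ s, f s * k (b - s)) ≤
      (U - L) * (1 - 2 * r * κ) + (2 * M + |U| + |L|) * ∫ t in {t | η / 2 ≤ |t|}, k t := by
  have hM0 : 0 ≤ M := (abs_nonneg _).trans (hM 0)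
  set E : Set ℝ := {t | η / 2 ≤ |t|} with hE
  have hEm : MeasurableSet E := (isClosed_le continuous_const continuous_abs).measurableSet
  obtain ⟨kE, hkE⟩ : ∃ kE, kE = E.indicator k := ⟨_, rfl⟩
  have hkEi : Integrable kE := by rw [hkE]; exact hki.indicator hEm
  have hkE0 : ∀ t, 0 ≤ kE t := by
    intro t; rw [hkE]; exact Set.indicator_nonneg (fun t _ => hk0 t) t
  have hIE : ∫ t in E, k t = ∫ t, kE t := by rw [hkE, integral_indicator hEm]
  rw [hIE]
  have hu : Integrable (fun s => k (a - s)) := hki.comp_sub_left a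
  have hv : Integrable (fun s => k (b - s)) := hki.comp_sub_left b
  have hw : Integrable (fun s => min (k (a - s)) (k (b - s))) := hu.inf hv
  have hfs : AEStronglyMeasurable f := hfm.aestronglyMeasurable
  have hfb : ∀ᵐ x, ‖f x‖ ≤ M := Eventually.of_forall hM
  have hfu : Integrable (fun s => f s * k (a - s)) := hu.bdd_mul hfs hfb
  have hfv : Integrable (fun s => f s * k (b - s)) := hv.bdd_mul hfs hfb
  have hfw : Integrable (fun s => f s * min (k (a - s)) (k (b - s))) := hw.bdd_mul hfs hfb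
  have hEu : Integrable (fun s => kE (a - s)) := hkEi.comp_sub_left a
  have hEv : Integrable (fun s => kE (b - s)) := hkEi.comp_sub_left b
  have hIu : ∫ s, k (a - s) = ∫ t, k t := integral_sub_left_eq_self k volume a
  have hIv : ∫ s, k (b - s) = ∫ t, k t := integral_sub_left_eq_self k volume b
  have hIEu : ∫ s, kE (a - s) = ∫ t, kE t := integral_sub_left_eq_self kE volume a
  have hIEv : ∫ s, kE (b - s) = ∫ t, kE t := integral_sub_left_eq_self kE volume b
  -- upper bound for the first integral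
  have h1 : ∫ s, (f s * k (a - s) - f s * min (k (a - s)) (k (b - s))) ≤
      ∫ s, (U * (k (a - s) - min (k (a - s)) (k (b - s))) + (M + |U|) * kE (a - s)) := by
    apply integral_mono (hfu.sub hfw)
    · exact ((hu.sub hw).const_mul U).add (hEu.const_mul _)
    · intro s
      have hd : 0 ≤ k (a - s) - min (k (a - s)) (k (b - s)) := sub_nonneg.mpr (min_le_left _ _)
      have hmin0 : 0 ≤ min (k (a - s)) (k (b - s)) := le_min (hk0 _) (hk0 _)
      show f s * k (a - s) - f s * min (k (a - s)) (k (b - s)) ≤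
        U * (k (a - s) - min (k (a - s)) (k (b - s))) + (M + |U|) * kE (a - s)
      rw [← mul_sub]
      by_cases hs : |s - x0| < η
      · have := mul_le_mul_of_nonneg_right (hU s hs) hd
        have h0 : 0 ≤ (M + |U|) * kE (a - s) := mul_nonneg (by positivity) (hkE0 _)
        linarith
      · push Not at hs
        have hmem : a - s ∈ E := by
          show η / 2 ≤ |a - s|
          have : |s - x0| ≤ |a - s| + |a - x0| := by
            have e : s - x0 = -(a - s) + (a - x0) := by ring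
            rw [e]; exact (abs_add_le _ _).trans (by rw [abs_neg])
          linarith
        have hke : kE (a - s) = k (a - s) := by rw [hkE]; exact Set.indicator_of_mem hmem k
        rw [hke]
        have hfM : f s ≤ M := (le_abs_self _).trans (hM s)
        have hUa : -|U| ≤ U := neg_abs_le U
        have hle : k (a - s) - min (k (a - s)) (k (b - s)) ≤ k (a - s) := by linarith
        have e1 : f s * (k (a - s) - min (k (a - s)) (k (b - s))) -
            U * (k (a - s) - min (k (a - s)) (k (b - s))) ≤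
            (M + |U|) * (k (a - s) - min (k (a - s)) (k (b - s))) := by
          rw [← sub_mul]
          exact mul_le_mul_of_nonneg_right (by linarith) hd
        have e2 : (M + |U|) * (k (a - s) - min (k (a - s)) (k (b - s))) ≤ (M + |U|) * k (a - s) :=
          mul_le_mul_of_nonneg_left hle (by positivity)
        linarith
  have h2 : ∫ s, (L * (k (b - s) - min (k (a - s)) (k (b - s))) - (M + |L|) * kE (b - s)) ≤
      ∫ s, (f s * k (b - s) - f s * min (k (a - s)) (k (b - s))) := by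
    apply integral_mono _ (hfv.sub hfw)
    · intro s
      have hd : 0 ≤ k (b - s) - min (k (a - s)) (k (b - s)) := sub_nonneg.mpr (min_le_right _ _)
      have hmin0 : 0 ≤ min (k (a - s)) (k (b - s)) := le_min (hk0 _) (hk0 _)
      show L * (k (b - s) - min (k (a - s)) (k (b - s))) - (M + |L|) * kE (b - s) ≤
        f s * k (b - s) - f s * min (k (a - s)) (k (b - s))
      rw [← mul_sub]
      by_cases hs : |s - x0| < η
      · have := mul_le_mul_of_nonneg_right (hL s hs) hd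
        have h0 : 0 ≤ (M + |L|) * kE (b - s) := mul_nonneg (by positivity) (hkE0 _)
        linarith
      · push Not at hs
        have hmem : b - s ∈ E := by
          show η / 2 ≤ |b - s|
          have : |s - x0| ≤ |b - s| + |b - x0| := by
            have e : s - x0 = -(b - s) + (b - x0) := by ring
            rw [e]; exact (abs_add_le _ _).trans (by rw [abs_neg])
          linarith
        have hke : kE (b - s) = k (b - s) := by rw [hkE]; exact Set.indicator_of_mem hmem k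
        rw [hke]
        have hfM : -M ≤ f s := (abs_le.mp (hM s)).1
        have hLa : L ≤ |L| := le_abs_self L
        have hle : k (b - s) - min (k (a - s)) (k (b - s)) ≤ k (b - s) := by linarith
        have e1 : L * (k (b - s) - min (k (a - s)) (k (b - s))) -
            f s * (k (b - s) - min (k (a - s)) (k (b - s))) ≤
            (M + |L|) * (k (b - s) - min (k (a - s)) (k (b - s))) := by
          rw [← sub_mul]
          exact mul_le_mul_of_nonneg_right (by linarith) hd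
        have e2 : (M + |L|) * (k (b - s) - min (k (a - s)) (k (b - s))) ≤ (M + |L|) * k (b - s) :=
          mul_le_mul_of_nonneg_left hle (by positivity)
        linarith
    · exact ((hv.sub hw).const_mul L).sub (hEv.const_mul _)
  -- lower bound for the overlap
  have h3 : 2 * r * κ ≤ ∫ s, min (k (a - s)) (k (b - s)) := by
    have hsub : ∫ s in Icc (x0 - r) (x0 + r), κ ≤
        ∫ s in Icc (x0 - r) (x0 + r), min (k (a - s)) (k (b - s)) := by
      apply setIntegral_mono_on (by simp) hw.integrableOn measurableSet_Icc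
      intro s hs
      have hs' : |x0 - s| ≤ r := by rw [abs_le]; constructor <;> linarith [hs.1, hs.2]
      refine le_min (hlow _ ?_) (hlow _ ?_)
      · have e : a - s = (a - x0) + (x0 - s) := by ring
        rw [e]; exact (abs_add_le _ _).trans (by linarith)
      · have e : b - s = (b - x0) + (x0 - s) := by ring
        rw [e]; exact (abs_add_le _ _).trans (by linarith)
    have hc : ∫ s in Icc (x0 - r) (x0 + r), κ = 2 * r * κ := by
      rw [setIntegral_const, smul_eq_mul, Measure.real, Real.volume_Icc,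
        ENNReal.toReal_ofReal (by linarith)]
      ring
    rw [hc] at hsub
    refine hsub.trans ?_
    apply setIntegral_le_integral hw
    exact Eventually.of_forall fun s => le_min (hk0 _) (hk0 _)
  have d1 : Integrable (fun s => U * (k (a - s) - min (k (a - s)) (k (b - s)))) :=
    (hu.sub hw).const_mul U
  have d2 : Integrable (fun s => (M + |U|) * kE (a - s)) := hEu.const_mul _
  have d3 : Integrable (fun s => L * (k (b - s) - min (k (a - s)) (k (b - s)))) :=
    (hv.sub hw).const_mul L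
  have d4 : Integrable (fun s => (M + |L|) * kE (b - s)) := hEv.const_mul _
  rw [integral_sub hfu hfw, integral_add d1 d2,
    integral_const_mul, integral_const_mul, integral_sub hu hw, hIu, hIEu] at h1
  rw [integral_sub hfv hfw, integral_sub d3 d4,
    integral_const_mul, integral_const_mul, integral_sub hv hw, hIv, hIEv] at h2
  have h4 : (U - L) * ((∫ t, k t) - ∫ s, min (k (a - s)) (k (b - s))) ≤
      (U - L) * (1 - 2 * r * κ) :=
    mul_le_mul_of_nonneg_left (by linarith) (by linarith)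
  nlinarith [h1, h2, h4]


lemma exists_near {α : ℝ} {f g : ℝ → ℝ} {r : ℝ} (h : hDist α f g < ENNReal.ofReal r)
    {A : ℝ × ℝ} (hA : A ∈ completedGraph f) : ∃ B ∈ completedGraph g, rho α A B < r := by
  have h1 : ⨅ B ∈ completedGraph g, ENNReal.ofReal (rho α A B) < ENNReal.ofReal r :=
    lt_of_le_of_lt ((le_iSup₂ (f := fun A (_ : A ∈ completedGraph f) =>
      ⨅ B ∈ completedGraph g, ENNReal.ofReal (rho α A B)) A hA).trans (le_max_left _ _)) h
  simp only [iInf_lt_iff] at h1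
  obtain ⟨B, hB, hlt⟩ := h1
  exact ⟨B, hB, (ENNReal.ofReal_lt_ofReal_iff_of_nonneg (by
    unfold rho; exact (abs_nonneg _).trans (le_max_right _ _))).mp hlt⟩

lemma bddAbove_under {f : ℝ → ℝ} {M : ℝ} (hM : ∀ x, |f x| ≤ M) (l : Filter ℝ) :
    l.IsBoundedUnder (· ≤ ·) f :=
  ⟨M, eventually_map.mpr (Eventually.of_forall fun x => (le_abs_self _).trans (hM x))⟩

lemma bddBelow_under {f : ℝ → ℝ} {M : ℝ} (hM : ∀ x, |f x| ≤ M) (l : Filter ℝ) :
    l.IsBoundedUnder (· ≥ ·) f :=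
  ⟨-M, eventually_map.mpr (Eventually.of_forall fun x => (abs_le.mp (hM x)).1)⟩

lemma conv_bound {k : ℝ → ℝ} (hk0 : ∀ t, 0 ≤ k t) (hki : Integrable k) (hk1 : ∫ t, k t ≤ 1)
    {f : ℝ → ℝ} {M : ℝ} (hM : ∀ x, |f x| ≤ M) (x : ℝ) : |∫ s, f s * k (x - s)| ≤ M := by
  have hM0 : 0 ≤ M := (abs_nonneg _).trans (hM 0)
  have h1 : ‖∫ s, f s * k (x - s)‖ ≤ ∫ s, M * k (x - s) := by
    apply norm_integral_le_of_norm_le ((hki.comp_sub_left x).const_mul M)
    refine Eventually.of_forall fun s => ?_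
    rw [norm_mul, Real.norm_eq_abs, Real.norm_eq_abs, abs_of_nonneg (hk0 _)]
    exact mul_le_mul_of_nonneg_right (hM s) (hk0 _)
  rw [integral_const_mul, integral_sub_left_eq_self k volume x, Real.norm_eq_abs] at h1
  nlinarith

theorem continuous_of_kernel {ι : Type*} {l : Filter ι} [l.NeBot] {α : ℝ} (hα : 0 < α)
    (K : ι → ℝ → ℝ) (δ : ι → ℝ) (hδ : ∀ᶠ i in l, 0 < δ i) (hδ0 : Tendsto δ l (𝓝 0))
    (hK0 : ∀ᶠ i in l, ∀ t, 0 ≤ K i t) (hKi : ∀ᶠ i in l, Integrable (K i))
    (hK1 : ∀ᶠ i in l, ∫ t, K i t ≤ 1)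
    (htail : ∀ η > 0, Tendsto (fun i => ∫ t in {t | η ≤ |t|}, K i t) l (𝓝 0))
    (hlow : ∀ R > 0, ∃ m > 0, ∀ᶠ i in l, ∀ t, |t| ≤ R * δ i → m ≤ δ i * K i t)
    {f : ℝ → ℝ} (hf : ∃ M, ∀ x, |f x| ≤ M) (hfm : AEMeasurable f)
    (T : ι → ℝ → ℝ) (hT : ∀ᶠ i in l, ∀ x, T i x = ∫ s, f s * K i (x - s))
    (hlim : limsup (fun i => ENNReal.ofReal (α / δ i) * hDist α f (T i)) l < ⊤) :
    Continuous f := by
  obtain ⟨M, hM⟩ := hf
  obtain ⟨C0, hC0, -⟩ := ENNReal.lt_iff_exists_nnreal_btwn.mp hlim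
  have hev := eventually_lt_of_limsup_lt hC0
  obtain ⟨C, hC⟩ : ∃ C : ℝ, C = C0 + 1 := ⟨_, rfl⟩
  have hCpos : 0 < C := by rw [hC]; positivity
  have hev2 : ∀ᶠ i in l, hDist α f (T i) < ENNReal.ofReal (C * δ i / α) := by
    filter_upwards [hev, hδ] with i hi hδi
    by_contra hcon
    push Not at hcon
    have h1 : ENNReal.ofReal (α / δ i) * ENNReal.ofReal (C * δ i / α) ≤
        ENNReal.ofReal (α / δ i) * hDist α f (T i) := by gcongr
    rw [← ENNReal.ofReal_mul (by positivity)] at h1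
    have h2 : α / δ i * (C * δ i / α) = C := by field_simp
    rw [h2] at h1
    have h3 : (C0 : ℝ≥0∞) ≤ ENNReal.ofReal C := by
      rw [hC, ← ENNReal.ofReal_coe_nnreal]
      exact ENNReal.ofReal_le_ofReal (by linarith)
    exact absurd (h1.trans_lt hi) (not_lt.mpr h3)
  -- main claim
  have main : ∀ x0, limsup f (𝓝 x0) ≤ liminf f (𝓝 x0) := by
    intro x0
    obtain ⟨S, hS⟩ : ∃ S, S = limsup f (𝓝 x0) := ⟨_, rfl⟩
    obtain ⟨I, hI⟩ : ∃ I, I = liminf f (𝓝 x0) := ⟨_, rfl⟩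
    have hIS : I ≤ S := by
      rw [hS, hI]
      exact liminf_le_limsup (bddAbove_under hM _) (bddBelow_under hM _)
    rw [← hS, ← hI]
    by_contra hlt
    push Not at hlt
    have hAS : ((x0, S) : ℝ × ℝ) ∈ completedGraph f := ⟨by rw [← hI]; exact hIS, by rw [← hS]⟩
    have hAI : ((x0, I) : ℝ × ℝ) ∈ completedGraph f := ⟨by rw [← hI], by rw [← hS]; exact hIS⟩
    -- the points
    have hpts : ∀ᶠ i in l, ∃ a b : ℝ, |a - x0| < C * δ i ∧ |b - x0| < C * δ i ∧
        S - (C / α + 1) * δ i < T i a ∧ T i b < I + (C / α + 1) * δ i := by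
      filter_upwards [hev2, hδ, hT, hK0, hKi, hK1] with i hi hδi hTi hK0i hKii hK1i
      have hTb : ∀ x, |T i x| ≤ M := fun x => by rw [hTi]; exact conv_bound hK0i hKii hK1i hM x
      obtain ⟨B1, hB1, hr1⟩ := exists_near hi hAS
      obtain ⟨B2, hB2, hr2⟩ := exists_near hi hAI
      have p1 : |x0 - B1.1| < C * δ i := by
        have := (le_max_left (α⁻¹ * |x0 - B1.1|) |S - B1.2|).trans_lt hr1
        rw [inv_mul_lt_iff₀ hα] at this
        calc |x0 - B1.1| < α * (C * δ i / α) := this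
          _ = C * δ i := by field_simp
      have p2 : |S - B1.2| < C * δ i / α :=
        (le_max_right (α⁻¹ * |x0 - B1.1|) |S - B1.2|).trans_lt hr1
      have q1 : |x0 - B2.1| < C * δ i := by
        have := (le_max_left (α⁻¹ * |x0 - B2.1|) |I - B2.2|).trans_lt hr2
        rw [inv_mul_lt_iff₀ hα] at this
        calc |x0 - B2.1| < α * (C * δ i / α) := this
          _ = C * δ i := by field_simp
      have q2 : |I - B2.2| < C * δ i / α :=
        (le_max_right (α⁻¹ * |x0 - B2.1|) |I - B2.2|).trans_lt hr2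
      have e1 : ∀ᶠ z in 𝓝 B1.1, |x0 - z| < C * δ i :=
        (continuous_const.sub continuous_id).abs.continuousAt.eventually_lt
          continuousAt_const p1
      have e2 : ∀ᶠ z in 𝓝 B2.1, |x0 - z| < C * δ i :=
        (continuous_const.sub continuous_id).abs.continuousAt.eventually_lt
          continuousAt_const q1
      have f1 : ∃ᶠ z in 𝓝 B1.1, B1.2 - δ i < T i z :=
        frequently_lt_of_lt_limsup (bddBelow_under hTb _).isCoboundedUnder_le
          (lt_of_lt_of_le (by linarith) hB1.2)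
      have f2 : ∃ᶠ z in 𝓝 B2.1, T i z < B2.2 + δ i :=
        frequently_lt_of_liminf_lt (bddAbove_under hTb _).isCoboundedUnder_ge
          (lt_of_le_of_lt hB2.1 (by linarith))
      obtain ⟨a, ha1, ha2⟩ := (f1.and_eventually e1).exists
      obtain ⟨b, hb1, hb2⟩ := (f2.and_eventually e2).exists
      refine ⟨a, b, by rw [abs_sub_comm]; exact ha2, by rw [abs_sub_comm]; exact hb2, ?_, ?_⟩
      · have := (abs_lt.mp p2).2
        have e : (C / α + 1) * δ i = C * δ i / α + δ i := by ring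
        rw [e]; linarith
      · have := (abs_lt.mp q2).1
        have e : (C / α + 1) * δ i = C * δ i / α + δ i := by ring
        rw [e]; linarith
    obtain ⟨m, hm, hmev⟩ := hlow (2 * C) (by positivity)
    have key : ∀ ε > 0, S - I ≤ (S - I + 2 * ε) * (1 - 2 * C * m) := by
      intro ε hε
      have hu : ∀ᶠ s in 𝓝 x0, f s < S + ε :=
        eventually_lt_of_limsup_lt (by rw [← hS]; linarith) (bddAbove_under hM _)
      have hl : ∀ᶠ s in 𝓝 x0, I - ε < f s :=
        eventually_lt_of_lt_liminf (by rw [← hI]; linarith) (bddBelow_under hM _)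
      obtain ⟨η, hη, hball⟩ := Metric.eventually_nhds_iff.mp (hu.and hl)
      have hUb : ∀ s, |s - x0| < η → f s ≤ S + ε := fun s hs => (hball (by
        rw [Real.dist_eq]; exact hs)).1.le
      have hLb : ∀ s, |s - x0| < η → I - ε ≤ f s := fun s hs => (hball (by
        rw [Real.dist_eq]; exact hs)).2.le
      have hsmall : ∀ᶠ i in l, C * δ i ≤ η / 2 := by
        have : Tendsto (fun i => C * δ i) l (𝓝 (C * 0)) := hδ0.const_mul C
        rw [mul_zero] at this
        exact this.eventually_le_const (by positivity)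
      have hineq : ∀ᶠ i in l, S - I - 2 * ((C / α + 1) * δ i) ≤
          (S - I + 2 * ε) * (1 - 2 * C * m) +
          (2 * M + |S + ε| + |I - ε|) * ∫ t in {t | η / 2 ≤ |t|}, K i t := by
        filter_upwards [hpts, hsmall, hδ, hT, hK0, hKi, hK1, hmev] with i hp hsm hδi hTi hK0i
          hKii hK1i hmi
        obtain ⟨a, b, ha, hb, hTa, hTb⟩ := hp
        have := overlap_bound (K i) hK0i hKii hK1i f M hM hfm x0 η (C * δ i) a b (S + ε) (I - ε)
          (m / δ i) (by positivity) hsm ha hb (by linarith) hUb hLb (fun t ht => by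
            rw [div_le_iff₀ hδi, mul_comm]
            exact hmi t (by rw [mul_assoc]; exact ht))
        rw [← hTi, ← hTi] at this
        have e : 2 * (C * δ i) * (m / δ i) = 2 * C * m := by field_simp
        rw [e] at this
        have e2 : S + ε - (I - ε) = S - I + 2 * ε := by ring
        rw [e2] at this
        linarith
      have t1 : Tendsto (fun i => S - I - 2 * ((C / α + 1) * δ i)) l
          (𝓝 (S - I - 2 * ((C / α + 1) * 0))) :=
        tendsto_const_nhds.sub ((hδ0.const_mul _).const_mul _)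
      have t2 : Tendsto (fun i => (S - I + 2 * ε) * (1 - 2 * C * m) +
          (2 * M + |S + ε| + |I - ε|) * ∫ t in {t | η / 2 ≤ |t|}, K i t) l
          (𝓝 ((S - I + 2 * ε) * (1 - 2 * C * m) + (2 * M + |S + ε| + |I - ε|) * 0)) :=
        tendsto_const_nhds.add ((htail (η / 2) (by positivity)).const_mul _)
      have := le_of_tendsto_of_tendsto t1 t2 hineq
      simpa using this
    have hCm : 0 < 2 * C * m := by positivity
    have := key ((S - I) * (2 * C * m) / 4) (by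
      have : 0 < S - I := by linarith
      positivity)
    have hSI : 0 < S - I := by linarith
    have h5 : 0 < (S - I) * (2 * C * m) := mul_pos hSI hCm
    nlinarith [mul_pos h5 hCm]
  rw [continuous_iff_continuousAt]
  intro x0
  have hmem : ∃ᶠ s in 𝓝 x0, f s = f x0 := by
    rw [Filter.frequently_iff]
    intro U hU
    exact ⟨x0, mem_of_mem_nhds hU, rfl⟩
  have h1 : f x0 ≤ limsup f (𝓝 x0) :=
    le_limsup_of_frequently_le (hmem.mono fun s hs => hs.ge) (bddAbove_under hM _)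
  have h2 : liminf f (𝓝 x0) ≤ f x0 :=
    liminf_le_of_frequently_le (hmem.mono fun s hs => hs.le) (bddBelow_under hM _)
  exact tendsto_of_le_liminf_of_limsup_le (h1.trans (main x0)) ((main x0).trans h2)
    (bddAbove_under hM _) (bddBelow_under hM _)


/-! ### The Gauss–Weierstrass kernel -/


/-- Gauss kernel -/
noncomputable def gaussK (n : ℕ) (t : ℝ) : ℝ := √(n / Real.pi) * Real.exp (-(n : ℝ) * t ^ 2)

lemma gaussK_nonneg (n : ℕ) (t : ℝ) : 0 ≤ gaussK n t := by unfold gaussK; positivity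

lemma gaussK_integrable {n : ℕ} (hn : 0 < n) : Integrable (gaussK n) :=
  (integrable_exp_neg_mul_sq (by positivity)).const_mul _

lemma gaussK_integral {n : ℕ} (hn : 0 < n) : ∫ t, gaussK n t = 1 := by
  unfold gaussK
  rw [integral_const_mul, integral_gaussian, ← Real.sqrt_mul (by positivity)]
  have : (n : ℝ) ≠ 0 := by positivity
  have h : (n : ℝ) / Real.pi * (Real.pi / n) = 1 := by field_simp
  rw [h, Real.sqrt_one]

lemma gaussK_tail {η : ℝ} (hη : 0 < η) {n : ℕ} (hn : 0 < n) :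
    ∫ t in {t | η ≤ |t|}, gaussK n t ≤ √2 * Real.exp (-(η ^ 2 / 2)) ^ n := by
  have hn' : (0 : ℝ) < n := by positivity
  set E : Set ℝ := {t | η ≤ |t|} with hE
  have hEm : MeasurableSet E := (isClosed_le continuous_const continuous_abs).measurableSet
  have hgi : Integrable (fun t : ℝ => √(n / Real.pi) * Real.exp (-(η ^ 2 / 2)) ^ n *
      Real.exp (-((n : ℝ) / 2) * t ^ 2)) :=
    (integrable_exp_neg_mul_sq (by positivity)).const_mul _
  have h1 : ∫ t in E, gaussK n t ≤ ∫ t in E, √(n / Real.pi) * Real.exp (-(η ^ 2 / 2)) ^ n *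
      Real.exp (-((n : ℝ) / 2) * t ^ 2) := by
    apply setIntegral_mono_on (gaussK_integrable hn).integrableOn hgi.integrableOn hEm
    intro t ht
    have ht' : η ^ 2 ≤ t ^ 2 := by
      rw [← sq_abs t]
      exact pow_le_pow_left₀ hη.le ht 2
    unfold gaussK
    rw [mul_assoc]
    apply mul_le_mul_of_nonneg_left _ (by positivity)
    rw [← Real.exp_nat_mul, ← Real.exp_add]
    apply Real.exp_le_exp.mpr
    nlinarith
  refine h1.trans ((setIntegral_le_integral hgi (Eventually.of_forall fun t => by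
    show 0 ≤ _; positivity)).trans (le_of_eq ?_))
  rw [integral_const_mul, integral_gaussian, mul_right_comm, ← Real.sqrt_mul (by positivity)]
  have h : (n : ℝ) / Real.pi * (Real.pi / (n / 2)) = 2 := by field_simp
  rw [h]

lemma W_eq (n : ℕ) (f : ℝ → ℝ) (x : ℝ) : W n f x = ∫ s, f s * gaussK n (x - s) := by
  unfold W gaussK
  rw [← integral_const_mul]
  congr 1
  ext s
  rw [← neg_sub x s, neg_sq]
  ring

lemma gauss_tail_tendsto {η : ℝ} (hη : 0 < η) :
    Tendsto (fun n : ℕ => ∫ t in {t | η ≤ |t|}, gaussK n t) atTop (𝓝 0) := by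
  have h1 : Tendsto (fun n : ℕ => √2 * Real.exp (-(η ^ 2 / 2)) ^ n) atTop (𝓝 (√2 * 0)) := by
    apply Tendsto.const_mul
    apply tendsto_pow_atTop_nhds_zero_of_lt_one (by positivity)
    rw [Real.exp_lt_one_iff]
    have : 0 < η ^ 2 / 2 := by positivity
    linarith
  rw [mul_zero] at h1
  refine tendsto_of_tendsto_of_tendsto_of_le_of_le' tendsto_const_nhds h1 ?_ ?_
  · exact Eventually.of_forall fun n => setIntegral_nonneg
      ((isClosed_le continuous_const continuous_abs).measurableSet) fun t _ => gaussK_nonneg n t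
  · filter_upwards [eventually_gt_atTop 0] with n hn
    exact gaussK_tail hη hn

lemma gauss_low {R : ℝ} : ∃ m > 0, ∀ᶠ n : ℕ in atTop, ∀ t : ℝ,
    |t| ≤ R * (1 / √(n : ℝ)) → m ≤ 1 / √(n : ℝ) * gaussK n t := by
  refine ⟨1 / √Real.pi * Real.exp (-R ^ 2), by positivity, ?_⟩
  filter_upwards [eventually_gt_atTop 0] with n hn
  intro t ht
  have hn' : (0 : ℝ) < n := by positivity
  have hs : 0 < √(n : ℝ) := Real.sqrt_pos.mpr hn'
  have e : 1 / √(n : ℝ) * gaussK n t = 1 / √Real.pi * Real.exp (-(n : ℝ) * t ^ 2) := by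
    unfold gaussK
    rw [Real.sqrt_div hn'.le]
    field_simp
  rw [e]
  apply mul_le_mul_of_nonneg_left _ (by positivity)
  apply Real.exp_le_exp.mpr
  have h1 : t ^ 2 ≤ (R * (1 / √(n : ℝ))) ^ 2 := by
    rw [← sq_abs t]
    exact pow_le_pow_left₀ (abs_nonneg _) ht 2
  have h2 : (R * (1 / √(n : ℝ))) ^ 2 = R ^ 2 / n := by
    rw [mul_pow, div_pow, Real.sq_sqrt hn'.le]; ring
  rw [h2] at h1
  have h3 : n * t ^ 2 ≤ R ^ 2 := by
    rw [le_div_iff₀ hn'] at h1
    linarith
  linarith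

lemma tendsto_inv_sqrt : Tendsto (fun n : ℕ => 1 / √(n : ℝ)) atTop (𝓝 0) := by
  have : Tendsto (fun n : ℕ => √(n : ℝ)) atTop atTop :=
    Real.tendsto_sqrt_atTop.comp tendsto_natCast_atTop_atTop
  simpa using this.const_div_atTop 1


/-! ### Periodic kernels -/


/-- the kernel on `(-π, π]`, extended by zero -/
noncomputable def perK (k : ℝ → ℝ) (t : ℝ) : ℝ := (Ioc (-Real.pi) Real.pi).indicator k t

lemma conv_perK (k f : ℝ → ℝ) (x : ℝ) :
    ∫ t in (-Real.pi)..Real.pi, f (x - t) * k t = ∫ s, f s * perK k (x - s) := by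
  have h := integral_sub_left_eq_self (fun s => f s * perK k (x - s)) volume x
  rw [← h, intervalIntegral.integral_of_le (by linarith [Real.pi_pos]),
    ← integral_indicator measurableSet_Ioc]
  congr 1
  ext t
  simp only [perK, sub_sub_cancel]
  by_cases ht : t ∈ Ioc (-Real.pi) Real.pi
  · rw [Set.indicator_of_mem ht, Set.indicator_of_mem ht]
  · rw [Set.indicator_of_notMem ht, Set.indicator_of_notMem ht, mul_zero]

lemma perK_nonneg {k : ℝ → ℝ} (hk : ∀ t, 0 ≤ k t) (t : ℝ) : 0 ≤ perK k t :=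
  Set.indicator_nonneg (fun t _ => hk t) t

lemma perK_integrable {k : ℝ → ℝ} (hk : Continuous k) : Integrable (perK k) := by
  unfold perK
  rw [show (fun t => (Ioc (-Real.pi) Real.pi).indicator k t) = (Ioc (-Real.pi) Real.pi).indicator k
    from rfl, integrable_indicator_iff measurableSet_Ioc]
  exact (hk.continuousOn.integrableOn_compact isCompact_Icc).mono_set Ioc_subset_Icc_self

lemma perK_integral (k : ℝ → ℝ) : ∫ t, perK k t = ∫ t in (-Real.pi)..Real.pi, k t := by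
  unfold perK
  rw [show (fun t => (Ioc (-Real.pi) Real.pi).indicator k t) = (Ioc (-Real.pi) Real.pi).indicator k
    from rfl, integral_indicator measurableSet_Ioc,
    intervalIntegral.integral_of_le (by linarith [Real.pi_pos])]

lemma perK_tail_le {k : ℝ → ℝ} (hkc : Continuous k) {η b : ℝ} (hb0 : 0 ≤ b)
    (hb : ∀ t, min η 1 ≤ |t| → |t| ≤ Real.pi → k t ≤ b) :
    ∫ t in {t | η ≤ |t|}, perK k t ≤ 2 * Real.pi * b := by
  have hEm : MeasurableSet {t : ℝ | η ≤ |t|} :=
    (isClosed_le continuous_const continuous_abs).measurableSet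
  rw [← integral_indicator hEm]
  have h1 : ∫ t, {t : ℝ | η ≤ |t|}.indicator (perK k) t ≤
      ∫ t, (Ioc (-Real.pi) Real.pi).indicator (fun _ => b) t := by
    apply integral_mono ((perK_integrable hkc).indicator hEm)
    · rw [integrable_indicator_iff measurableSet_Ioc]
      exact integrableOn_const (by simp) (by simp)
    · intro t
      show {t : ℝ | η ≤ |t|}.indicator (perK k) t ≤ (Ioc (-Real.pi) Real.pi).indicator (fun _ => b) t
      by_cases ht : t ∈ Ioc (-Real.pi) Real.pi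
      · rw [Set.indicator_of_mem ht]
        by_cases hE : t ∈ {t : ℝ | η ≤ |t|}
        · rw [Set.indicator_of_mem hE, perK, Set.indicator_of_mem ht]
          exact hb t ((min_le_left _ _).trans hE) (abs_le.mpr ⟨ht.1.le, ht.2⟩)
        · rw [Set.indicator_of_notMem hE]; exact hb0
      · rw [Set.indicator_of_notMem ht]
        by_cases hE : t ∈ {t : ℝ | η ≤ |t|}
        · rw [Set.indicator_of_mem hE, perK, Set.indicator_of_notMem ht]
        · rw [Set.indicator_of_notMem hE]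
  refine h1.trans (le_of_eq ?_)
  rw [integral_indicator measurableSet_Ioc, setIntegral_const, Measure.real, Real.volume_Ioc,
    ENNReal.toReal_ofReal (by linarith [Real.pi_pos]), smul_eq_mul]
  ring

lemma perK_tail_nonneg {k : ℝ → ℝ} (hk : ∀ t, 0 ≤ k t) (η : ℝ) :
    0 ≤ ∫ t in {t | η ≤ |t|}, perK k t :=
  setIntegral_nonneg ((isClosed_le continuous_const continuous_abs).measurableSet)
    fun t _ => perK_nonneg hk t

/-- Poisson kernel -/
noncomputable def poisK (ρ t : ℝ) : ℝ :=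
  1 / (2 * Real.pi) * ((1 - ρ ^ 2) / (1 - 2 * ρ * Real.cos t + ρ ^ 2))

lemma pois_den (ρ t : ℝ) : 1 - 2 * ρ * Real.cos t + ρ ^ 2 =
    (1 - ρ) ^ 2 + 2 * ρ * (1 - Real.cos t) := by ring

lemma pois_den_pos {ρ : ℝ} (h0 : 0 < ρ) (h1 : ρ < 1) (t : ℝ) :
    0 < 1 - 2 * ρ * Real.cos t + ρ ^ 2 := by
  rw [pois_den]
  have := Real.cos_le_one t
  have h2 : 0 < (1 - ρ) ^ 2 := pow_pos (by linarith) 2
  have h3 : 0 ≤ 2 * ρ * (1 - Real.cos t) := mul_nonneg (by positivity) (by linarith)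
  linarith

lemma poisK_nonneg {ρ : ℝ} (h0 : 0 < ρ) (h1 : ρ < 1) (t : ℝ) : 0 ≤ poisK ρ t := by
  unfold poisK
  have := pois_den_pos h0 h1 t
  have h2 : 0 ≤ 1 - ρ ^ 2 := by nlinarith
  positivity

lemma poisK_continuous {ρ : ℝ} (h0 : 0 < ρ) (h1 : ρ < 1) : Continuous (poisK ρ) := by
  unfold poisK
  apply continuous_const.mul
  apply Continuous.div (by fun_prop) (by fun_prop)
  intro t
  exact (pois_den_pos h0 h1 t).ne'

lemma poisK_integral {ρ : ℝ} (h0 : 0 < ρ) (h1 : ρ < 1) :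
    ∫ t in (-Real.pi)..Real.pi, poisK ρ t = 1 := by
  have hper : Function.Periodic (poisK ρ) (2 * Real.pi) := by
    intro t; unfold poisK; rw [Real.cos_add_two_pi]
  have e1 : ∫ t in (-Real.pi)..Real.pi, poisK ρ t = ∫ t in (0 : ℝ)..(2 * Real.pi), poisK ρ t := by
    have := hper.intervalIntegral_add_eq (-Real.pi) 0
    rw [show -Real.pi + 2 * Real.pi = Real.pi by ring, zero_add] at this
    exact this
  rw [e1]
  have hf : DiffContOnCl ℂ (fun _ : ℂ => (1 : ℂ)) (Metric.ball 0 1) := diffContOnCl_const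
  have hw : (ρ : ℂ) ∈ Metric.ball (0 : ℂ) 1 := by
    rw [Metric.mem_ball, dist_zero_right, Complex.norm_real, Real.norm_eq_abs, abs_of_pos h0]
    exact h1
  have h := hf.circleAverage_poissonKernel_smul' hw
  rw [Real.circleAverage_def] at h
  have e2 : ∀ θ : ℝ, ((‖circleMap 0 1 θ - 0‖ ^ 2 - ‖(ρ : ℂ) - 0‖ ^ 2) /
      ‖circleMap 0 1 θ - 0 - ((ρ : ℂ) - 0)‖ ^ 2) • (1 : ℂ) =
      (((1 - ρ ^ 2) / (1 - 2 * ρ * Real.cos θ + ρ ^ 2) : ℝ) : ℂ) := by
    intro θ
    have n1 : ‖circleMap 0 1 θ - 0‖ = 1 := by simp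
    have n2 : ‖(ρ : ℂ) - 0‖ = ρ := by
      rw [sub_zero, Complex.norm_real, Real.norm_eq_abs, abs_of_pos h0]
    have n3 : ‖circleMap 0 1 θ - 0 - ((ρ : ℂ) - 0)‖ ^ 2 = 1 - 2 * ρ * Real.cos θ + ρ ^ 2 := by
      rw [sub_zero, sub_zero, ← Complex.normSq_eq_norm_sq, Complex.normSq_apply]
      simp only [circleMap_zero, Complex.ofReal_one, one_mul, Complex.sub_re, Complex.ofReal_re,
        Complex.sub_im, Complex.ofReal_im, Complex.exp_ofReal_mul_I_re,
        Complex.exp_ofReal_mul_I_im]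
      nlinarith [Real.sin_sq_add_cos_sq θ]
    rw [n1, n2, n3]
    simp
  simp only [e2] at h
  rw [intervalIntegral.integral_ofReal] at h
  have h2 : (2 * Real.pi)⁻¹ * ∫ θ in (0 : ℝ)..(2 * Real.pi),
      (1 - ρ ^ 2) / (1 - 2 * ρ * Real.cos θ + ρ ^ 2) = 1 := by
    have : (((2 * Real.pi)⁻¹ * ∫ θ in (0 : ℝ)..(2 * Real.pi),
      (1 - ρ ^ 2) / (1 - 2 * ρ * Real.cos θ + ρ ^ 2) : ℝ) : ℂ) = 1 := by
      rw [← h, Complex.real_smul]; push_cast; rfl
    exact_mod_cast this
  unfold poisK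
  rw [intervalIntegral.integral_const_mul, one_div]
  exact h2

lemma pois_tail_tendsto {η : ℝ} (hη : 0 < η) :
    Tendsto (fun ρ : ℝ => ∫ t in {t | η ≤ |t|}, perK (poisK ρ) t) (𝓝[<] 1) (𝓝 0) := by
  set c := 1 - Real.cos (min η 1) with hc
  have hm : 0 < min η 1 := lt_min hη one_pos
  have hcpos : 0 < c := by
    have : Real.cos (min η 1) < Real.cos 0 :=
      Real.cos_lt_cos_of_nonneg_of_le_pi le_rfl ((min_le_right _ _).trans (by
        linarith [Real.pi_gt_three])) hm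
    rw [Real.cos_zero] at this
    linarith
  have hev : ∀ᶠ ρ : ℝ in 𝓝[<] 1, 1 / 2 < ρ ∧ ρ < 1 := by
    have h1 : ∀ᶠ ρ : ℝ in 𝓝[<] 1, ρ ∈ Ioo (1 / 2 : ℝ) 1 := Ioo_mem_nhdsLT (by norm_num)
    exact h1
  have hlim : Tendsto (fun ρ : ℝ => 2 * Real.pi * (1 / (2 * Real.pi) * ((1 - ρ ^ 2) / c)))
      (𝓝[<] 1) (𝓝 0) := by
    have : Tendsto (fun ρ : ℝ => 2 * Real.pi * (1 / (2 * Real.pi) * ((1 - ρ ^ 2) / c)))
      (𝓝 1) (𝓝 (2 * Real.pi * (1 / (2 * Real.pi) * ((1 - 1 ^ 2) / c)))) := by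
      apply Continuous.tendsto
      fun_prop
    simp only [one_pow, sub_self, zero_div, mul_zero] at this
    exact this.mono_left nhdsWithin_le_nhds
  refine tendsto_of_tendsto_of_tendsto_of_le_of_le' tendsto_const_nhds hlim ?_ ?_
  · filter_upwards [hev] with ρ hρ
    exact perK_tail_nonneg (poisK_nonneg (by linarith [hρ.1]) hρ.2) η
  · filter_upwards [hev] with ρ hρ
    have hρ0 : 0 < ρ := by linarith [hρ.1]
    have h2 : 0 ≤ 1 - ρ ^ 2 := by nlinarith [hρ.2]
    apply perK_tail_le (poisK_continuous hρ0 hρ.2) (by positivity)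
    intro t ht1 ht2
    unfold poisK
    apply mul_le_mul_of_nonneg_left _ (by positivity)
    apply div_le_div_of_nonneg_left h2 hcpos
    rw [pois_den]
    have h3 : Real.cos t ≤ Real.cos (min η 1) := by
      rw [← Real.cos_abs t]
      exact Real.cos_le_cos_of_nonneg_of_le_pi hm.le ht2 ht1
    nlinarith [sq_nonneg (1 - ρ), hρ.1, Real.cos_le_one t]

lemma pois_low {R : ℝ} : ∃ m > 0, ∀ᶠ ρ : ℝ in 𝓝[<] 1, ∀ t : ℝ,
    |t| ≤ R * (1 - ρ) → m ≤ (1 - ρ) * perK (poisK ρ) t := by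
  refine ⟨1 / (2 * Real.pi) * (1 / (1 + R ^ 2)), by positivity, ?_⟩
  have hev : ∀ᶠ ρ : ℝ in 𝓝[<] 1, 1 / 2 < ρ ∧ ρ < 1 := by
    have h1 : ∀ᶠ ρ : ℝ in 𝓝[<] 1, ρ ∈ Ioo (1 / 2 : ℝ) 1 := Ioo_mem_nhdsLT (by norm_num)
    exact h1
  have hsm : ∀ᶠ ρ : ℝ in 𝓝[<] 1, R * (1 - ρ) < Real.pi := by
    have : Tendsto (fun ρ : ℝ => R * (1 - ρ)) (𝓝[<] 1) (𝓝 (R * (1 - 1))) := by
      have : Tendsto (fun ρ : ℝ => R * (1 - ρ)) (𝓝 1) (𝓝 (R * (1 - 1))) := by
        apply Continuous.tendsto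
        fun_prop
      exact this.mono_left nhdsWithin_le_nhds
    rw [sub_self, mul_zero] at this
    exact this.eventually_lt_const Real.pi_pos
  filter_upwards [hev, hsm] with ρ hρ hs
  intro t ht
  have hρ0 : 0 < ρ := by linarith [hρ.1]
  have htm : t ∈ Ioc (-Real.pi) Real.pi := by
    have := abs_lt.mp (ht.trans_lt hs)
    exact ⟨this.1, this.2.le⟩
  rw [perK, Set.indicator_of_mem htm, poisK]
  have hden := pois_den_pos hρ0 hρ.2 t
  have hd : 0 < 1 - ρ := by linarith [hρ.2]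
  have ht2 : t ^ 2 ≤ R ^ 2 * (1 - ρ) ^ 2 := by
    rw [← sq_abs t, ← mul_pow]
    exact pow_le_pow_left₀ (abs_nonneg _) ht 2
  have hcos : 1 - t ^ 2 / 2 ≤ Real.cos t := Real.one_sub_sq_div_two_le_cos
  have hden2 : 1 - 2 * ρ * Real.cos t + ρ ^ 2 ≤ (1 + R ^ 2) * (1 - ρ) ^ 2 := by
    rw [pois_den]
    nlinarith [hρ.2, sq_nonneg t]
  have e : (1 - ρ) * (1 / (2 * Real.pi) * ((1 - ρ ^ 2) / (1 - 2 * ρ * Real.cos t + ρ ^ 2))) =
      1 / (2 * Real.pi) * ((1 - ρ) * (1 - ρ ^ 2) / (1 - 2 * ρ * Real.cos t + ρ ^ 2)) := by ring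
  rw [e]
  apply mul_le_mul_of_nonneg_left _ (by positivity)
  rw [div_le_div_iff₀ (by positivity) hden, one_mul]
  refine hden2.trans ?_
  have e2 : (1 - ρ) * (1 - ρ ^ 2) * (1 + R ^ 2) = (1 + R ^ 2) * (1 - ρ) ^ 2 * (1 + ρ) := by ring
  rw [e2]
  have h3 : 0 ≤ (1 + R ^ 2) * (1 - ρ) ^ 2 := by positivity
  nlinarith [mul_nonneg h3 hρ0.le]


/-- de la Vallée-Poussin kernel -/
noncomputable def vpK (n : ℕ) (t : ℝ) : ℝ :=
  (n ! : ℝ) ^ 2 / (2 * Real.pi * (2 * n)!) * (2 * Real.cos (t / 2)) ^ (2 * n)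

lemma vpK_nonneg (n : ℕ) (t : ℝ) : 0 ≤ vpK n t := by
  unfold vpK
  have : 0 ≤ (2 * Real.cos (t / 2)) ^ (2 * n) := by rw [pow_mul]; positivity
  positivity

lemma vpK_continuous (n : ℕ) : Continuous (vpK n) := by unfold vpK; fun_prop

lemma prod_eq (n : ℕ) : (∏ i ∈ Finset.range n, (2 * (i : ℝ) + 1) / (2 * i + 2)) =
    ((2 * n)! : ℝ) / (4 ^ n * (n ! : ℝ) ^ 2) := by
  induction n with
  | zero => simp
  | succ n ih =>
    rw [Finset.prod_range_succ, ih]
    have h1 : ((2 * (n + 1))! : ℝ) = (2 * n + 2) * (2 * n + 1) * (2 * n)! := by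
      rw [show 2 * (n + 1) = 2 * n + 1 + 1 by ring, Nat.factorial_succ, Nat.factorial_succ]
      push_cast
      ring
    have h2 : ((n + 1)! : ℝ) = (n + 1) * n ! := by
      rw [Nat.factorial_succ]; push_cast; ring
    rw [h1, h2]
    have h3 : (n ! : ℝ) ≠ 0 := by positivity
    field_simp
    ring

lemma vpK_integral (n : ℕ) : ∫ t in (-Real.pi)..Real.pi, vpK n t = 1 := by
  have h0 : ∀ t, vpK n t = (n ! : ℝ) ^ 2 / (2 * Real.pi * (2 * n)!) * 4 ^ n *
      (fun u => Real.sin u ^ (2 * n)) (t / 2 + Real.pi / 2) := by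
    intro t
    unfold vpK
    simp only [Real.sin_add_pi_div_two]
    rw [mul_pow, pow_mul 2 2 n]
    norm_num
    ring
  simp_rw [h0]
  rw [intervalIntegral.integral_const_mul,
    intervalIntegral.integral_comp_div_add (fun u => Real.sin u ^ (2 * n)) two_ne_zero]
  rw [show -Real.pi / 2 + Real.pi / 2 = 0 by ring, show Real.pi / 2 + Real.pi / 2 = Real.pi by ring,
    integral_sin_pow_even, prod_eq]
  have h3 : (n ! : ℝ) ≠ 0 := by positivity
  have h4 : ((2 * n)! : ℝ) ≠ 0 := by positivity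
  have h5 := Real.pi_ne_zero
  rw [smul_eq_mul]
  field_simp

lemma coef_eq (n : ℕ) : (n ! : ℝ) ^ 2 / (2 * Real.pi * (2 * n)!) * 4 ^ n =
    1 / (2 * Real.pi) * (4 ^ n / (Nat.centralBinom n : ℝ)) := by
  have h1 : (Nat.centralBinom n : ℝ) * (n ! : ℝ) ^ 2 = (2 * n)! := by
    have : (2 * n).choose n * n ! * (2 * n - n)! = (2 * n)! :=
      Nat.choose_mul_factorial_mul_factorial (by omega)
    rw [show 2 * n - n = n by omega] at this
    rw [Nat.centralBinom_eq_two_mul_choose, ← this]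
    push_cast
    ring
  have h2 : (Nat.centralBinom n : ℝ) ≠ 0 := by
    exact_mod_cast Nat.centralBinom_ne_zero n
  have h3 : (n ! : ℝ) ≠ 0 := by positivity
  have h5 := Real.pi_ne_zero
  rw [← h1]
  field_simp

lemma vpK_eq (n : ℕ) (t : ℝ) : vpK n t =
    1 / (2 * Real.pi) * (4 ^ n / (Nat.centralBinom n : ℝ)) * Real.cos (t / 2) ^ (2 * n) := by
  rw [← coef_eq, vpK, mul_pow, pow_mul 2 2 n]
  norm_num
  ring

lemma ratio_le {n : ℕ} (hn : 0 < n) : 4 ^ n / (Nat.centralBinom n : ℝ) ≤ 2 * n := by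
  have h2 : (0 : ℝ) < (Nat.centralBinom n : ℝ) := by
    exact_mod_cast Nat.centralBinom_pos n
  rw [div_le_iff₀ h2]
  exact_mod_cast Nat.four_pow_le_two_mul_self_mul_centralBinom n hn

lemma cb_sq (n : ℕ) : (Nat.centralBinom n : ℝ) ^ 2 * (2 * n + 1) ≤ (4 ^ n) ^ 2 := by
  induction n with
  | zero => simp
  | succ n ih =>
    have h1 : ((n : ℝ) + 1) * (Nat.centralBinom (n + 1) : ℝ) =
        2 * (2 * n + 1) * (Nat.centralBinom n : ℝ) := by
      exact_mod_cast Nat.succ_mul_centralBinom_succ n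
    have hn : (0 : ℝ) < (n : ℝ) + 1 := by positivity
    have h2 : ((n : ℝ) + 1) ^ 2 * ((Nat.centralBinom (n + 1) : ℝ) ^ 2 * (2 * ((n + 1 : ℕ) : ℝ) + 1)) ≤
        ((n : ℝ) + 1) ^ 2 * (4 ^ (n + 1)) ^ 2 := by
      have e : ((n : ℝ) + 1) ^ 2 * ((Nat.centralBinom (n + 1) : ℝ) ^ 2 *
          (2 * ((n + 1 : ℕ) : ℝ) + 1)) =
          4 * (2 * n + 1) * (2 * n + 3) * ((Nat.centralBinom n : ℝ) ^ 2 * (2 * n + 1)) := by
        have : ((n : ℝ) + 1) ^ 2 * ((Nat.centralBinom (n + 1) : ℝ) ^ 2 *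
          (2 * ((n + 1 : ℕ) : ℝ) + 1)) = (((n : ℝ) + 1) * (Nat.centralBinom (n + 1) : ℝ)) ^ 2 *
          (2 * ((n + 1 : ℕ) : ℝ) + 1) := by ring
        rw [this, h1]
        push_cast
        ring
      rw [e]
      have h3 : 4 * (2 * (n : ℝ) + 1) * (2 * n + 3) ≤ 16 * ((n : ℝ) + 1) ^ 2 := by nlinarith
      calc 4 * (2 * (n : ℝ) + 1) * (2 * n + 3) * ((Nat.centralBinom n : ℝ) ^ 2 * (2 * n + 1))
          ≤ 16 * ((n : ℝ) + 1) ^ 2 * (4 ^ n) ^ 2 := by
            apply mul_le_mul h3 ih (by positivity) (by positivity)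
        _ = ((n : ℝ) + 1) ^ 2 * (4 ^ (n + 1)) ^ 2 := by ring
    exact le_of_mul_le_mul_left h2 (by positivity)

lemma ratio_ge (n : ℕ) : √(n : ℝ) ≤ 4 ^ n / (Nat.centralBinom n : ℝ) := by
  have h2 : (0 : ℝ) < (Nat.centralBinom n : ℝ) := by
    exact_mod_cast Nat.centralBinom_pos n
  rw [le_div_iff₀ h2]
  apply le_of_sq_le_sq _ (by positivity)
  rw [mul_pow, Real.sq_sqrt (by positivity)]
  have := cb_sq n
  nlinarith [sq_nonneg (Nat.centralBinom n : ℝ), this, (Nat.cast_nonneg n : (0 : ℝ) ≤ n)]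

lemma vp_tail_tendsto {η : ℝ} (hη : 0 < η) :
    Tendsto (fun n : ℕ => ∫ t in {t | η ≤ |t|}, perK (vpK n) t) atTop (𝓝 0) := by
  set c := Real.cos (min η 1 / 2) ^ 2 with hc
  have hm : 0 < min η 1 := lt_min hη one_pos
  have hm1 : min η 1 ≤ 1 := min_le_right _ _
  have hpi := Real.pi_gt_three
  have hcos1 : Real.cos (min η 1 / 2) < 1 := by
    have : Real.cos (min η 1 / 2) < Real.cos 0 :=
      Real.cos_lt_cos_of_nonneg_of_le_pi le_rfl (by linarith) (by positivity)
    rwa [Real.cos_zero] at this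
  have hcos0 : 0 ≤ Real.cos (min η 1 / 2) :=
    Real.cos_nonneg_of_mem_Icc ⟨by linarith, by linarith⟩
  have hc0 : 0 ≤ c := by positivity
  have hc1 : c < 1 := by rw [hc]; nlinarith
  have hlim : Tendsto (fun n : ℕ => 2 * Real.pi * (1 / (2 * Real.pi) * (2 * n) * c ^ n))
      atTop (𝓝 0) := by
    have h1 := (tendsto_self_mul_const_pow_of_lt_one hc0 hc1).const_mul 2
    rw [mul_zero] at h1
    refine h1.congr fun n => ?_
    have := Real.pi_ne_zero
    field_simp
  refine tendsto_of_tendsto_of_tendsto_of_le_of_le' tendsto_const_nhds hlim ?_ ?_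
  · exact Eventually.of_forall fun n => perK_tail_nonneg (vpK_nonneg n) η
  · filter_upwards [eventually_gt_atTop 0] with n hn
    apply perK_tail_le (vpK_continuous n) (by positivity)
    intro t ht1 ht2
    rw [vpK_eq]
    have hr := ratio_le hn
    have hr0 : (0 : ℝ) ≤ 4 ^ n / (Nat.centralBinom n : ℝ) := by positivity
    have h3 : Real.cos (t / 2) ≤ Real.cos (min η 1 / 2) := by
      rw [← Real.cos_abs (t / 2)]
      apply Real.cos_le_cos_of_nonneg_of_le_pi (by positivity)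
      · rw [abs_div, abs_two]; linarith
      · rw [abs_div, abs_two]; linarith
    have h4 : 0 ≤ Real.cos (t / 2) := by
      have := abs_le.mp ht2
      exact Real.cos_nonneg_of_mem_Icc ⟨by linarith, by linarith⟩
    have h5 : Real.cos (t / 2) ^ (2 * n) ≤ c ^ n := by
      rw [hc, ← pow_mul]
      exact pow_le_pow_left₀ h4 h3 _
    have h6 : 1 / (2 * Real.pi) * (4 ^ n / (Nat.centralBinom n : ℝ)) ≤
        1 / (2 * Real.pi) * (2 * n) := mul_le_mul_of_nonneg_left hr (by positivity)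
    exact mul_le_mul h6 h5 (by positivity) (by positivity)

lemma exp_neg_two_le {x : ℝ} (h0 : 0 ≤ x) (h1 : x ≤ 1 / 2) : Real.exp (-(2 * x)) ≤ 1 - x := by
  have h2 : 2 * x + 1 ≤ Real.exp (2 * x) := Real.add_one_le_exp _
  rw [Real.exp_neg, inv_le_iff_one_le_mul₀ (Real.exp_pos _)]
  have h3 : 0 ≤ 1 - x := by linarith
  nlinarith [mul_le_mul_of_nonneg_left h2 h3]

lemma vp_low {R : ℝ} : ∃ m > 0, ∀ᶠ n : ℕ in atTop, ∀ t : ℝ,
    |t| ≤ R * (1 / √(n : ℝ)) → m ≤ 1 / √(n : ℝ) * perK (vpK n) t := by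
  refine ⟨1 / (2 * Real.pi) * Real.exp (-(R ^ 2 / 2)), by positivity, ?_⟩
  have ht1 : Tendsto (fun n : ℕ => R * (1 / √(n : ℝ))) atTop (𝓝 0) := by
    have h := tendsto_inv_sqrt.const_mul R
    rwa [mul_zero] at h
  filter_upwards [eventually_gt_atTop 0, ht1.eventually_lt_const (zero_lt_one)] with n hn hs
  intro t ht
  have hn' : (0 : ℝ) < n := by positivity
  have hsq : 0 < √(n : ℝ) := Real.sqrt_pos.mpr hn'
  have hpi := Real.pi_gt_three
  have htl := abs_lt.mp (ht.trans_lt hs)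
  have htm : t ∈ Ioc (-Real.pi) Real.pi := ⟨by linarith, by linarith⟩
  rw [perK, Set.indicator_of_mem htm, vpK_eq]
  have hr := ratio_ge n
  have ht2 : t ^ 2 ≤ R ^ 2 / n := by
    have h1 : t ^ 2 ≤ (R * (1 / √(n : ℝ))) ^ 2 := by
      rw [← sq_abs t]
      exact pow_le_pow_left₀ (abs_nonneg _) ht 2
    have h2 : (R * (1 / √(n : ℝ))) ^ 2 = R ^ 2 / n := by
      rw [mul_pow, div_pow, Real.sq_sqrt hn'.le]; ring
    rwa [h2] at h1
  have hcos : 1 - (t / 2) ^ 2 / 2 ≤ Real.cos (t / 2) := Real.one_sub_sq_div_two_le_cos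
  have ht3 : t ^ 2 < 1 := by nlinarith
  have hx : Real.exp (-(2 * (t ^ 2 / 8))) ≤ 1 - t ^ 2 / 8 :=
    exp_neg_two_le (by positivity) (by linarith)
  have hx2 : Real.exp (-(t ^ 2 / 4)) ≤ Real.cos (t / 2) := by
    have e : -(2 * (t ^ 2 / 8)) = -(t ^ 2 / 4) := by ring
    rw [e] at hx
    linarith
  have hx3 : Real.exp (-(R ^ 2 / 2)) ≤ Real.cos (t / 2) ^ (2 * n) := by
    refine le_trans ?_ (pow_le_pow_left₀ (Real.exp_pos _).le hx2 (2 * n))
    rw [← Real.exp_nat_mul]
    apply Real.exp_le_exp.mpr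
    rw [le_div_iff₀ hn'] at ht2
    push_cast
    nlinarith
  have e : 1 / √(n : ℝ) * (1 / (2 * Real.pi) * (4 ^ n / (Nat.centralBinom n : ℝ)) *
      Real.cos (t / 2) ^ (2 * n)) = 1 / (2 * Real.pi) *
      ((4 ^ n / (Nat.centralBinom n : ℝ)) / √(n : ℝ) * Real.cos (t / 2) ^ (2 * n)) := by
    field_simp
  rw [e]
  apply mul_le_mul_of_nonneg_left _ (by positivity)
  have h7 : 1 ≤ (4 ^ n / (Nat.centralBinom n : ℝ)) / √(n : ℝ) := by
    rw [le_div_iff₀ hsq]; linarith
  calc Real.exp (-(R ^ 2 / 2)) = 1 * Real.exp (-(R ^ 2 / 2)) := (one_mul _).symm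
    _ ≤ _ := mul_le_mul h7 hx3 (Real.exp_pos _).le (by linarith)


/-! ### Conclusion -/

lemma P_eq (ρ : ℝ) (f : ℝ → ℝ) (x : ℝ) : P ρ f x = ∫ s, f s * perK (poisK ρ) (x - s) := by
  rw [← conv_perK, P, ← intervalIntegral.integral_const_mul]
  congr 1
  ext t
  unfold poisK
  ring

lemma V_eq (n : ℕ) (f : ℝ → ℝ) (x : ℝ) : V n f x = ∫ s, f s * perK (vpK n) (x - s) := by
  rw [← conv_perK, V, ← intervalIntegral.integral_const_mul]
  congr 1
  ext t
  unfold vpK
  ring

theorem continuous_W {α : ℝ} (hα : 0 < α) {f : ℝ → ℝ} (hf : ∃ M : ℝ, ∀ x, |f x| ≤ M)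
    (hfm : AEMeasurable f volume) (h : limW α f < ⊤) : Continuous f := by
  refine continuous_of_kernel (l := atTop) hα gaussK (fun n : ℕ => 1 / √(n : ℝ)) ?_
    tendsto_inv_sqrt (Eventually.of_forall gaussK_nonneg) ?_ ?_
    (fun η hη => gauss_tail_tendsto hη) (fun R _ => gauss_low) hf hfm (fun n => W n f)
    (Eventually.of_forall fun n x => W_eq n f x) ?_
  · filter_upwards [eventually_gt_atTop 0] with n hn
    have : (0 : ℝ) < n := by exact_mod_cast hn
    positivity
  · filter_upwards [eventually_gt_atTop 0] with n hn using gaussK_integrable hn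
  · filter_upwards [eventually_gt_atTop 0] with n hn using (gaussK_integral hn).le
  · refine lt_of_le_of_lt (le_of_eq ?_) h
    unfold limW
    congr 1
    ext n
    rw [div_div_eq_mul_div, div_one]

theorem continuous_P {α : ℝ} (hα : 0 < α) {f : ℝ → ℝ} (hf : ∃ M : ℝ, ∀ x, |f x| ≤ M)
    (hfm : AEMeasurable f volume) (h : limP α f < ⊤) : Continuous f := by
  have hev : ∀ᶠ ρ : ℝ in 𝓝[<] 1, 0 < ρ ∧ ρ < 1 := by
    have h1 : ∀ᶠ ρ : ℝ in 𝓝[<] 1, ρ ∈ Ioo (0 : ℝ) 1 := Ioo_mem_nhdsLT (by norm_num)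
    exact h1
  refine continuous_of_kernel (l := 𝓝[<] (1 : ℝ)) hα (fun ρ => perK (poisK ρ)) (fun ρ => 1 - ρ) ?_ ?_
    ?_ ?_ ?_ (fun η hη => pois_tail_tendsto hη) (fun R _ => pois_low) hf hfm (fun ρ => P ρ f)
    (Eventually.of_forall fun ρ x => P_eq ρ f x) h
  · filter_upwards [hev] with ρ hρ
    linarith [hρ.2]
  · have : Tendsto (fun ρ : ℝ => 1 - ρ) (𝓝 1) (𝓝 (1 - 1)) := by
      apply Continuous.tendsto
      fun_prop
    rw [sub_self] at this
    exact this.mono_left nhdsWithin_le_nhds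
  · filter_upwards [hev] with ρ hρ using perK_nonneg (poisK_nonneg hρ.1 hρ.2)
  · filter_upwards [hev] with ρ hρ using perK_integrable (poisK_continuous hρ.1 hρ.2)
  · filter_upwards [hev] with ρ hρ
    rw [perK_integral, poisK_integral hρ.1 hρ.2]

theorem continuous_V {α : ℝ} (hα : 0 < α) {f : ℝ → ℝ} (hf : ∃ M : ℝ, ∀ x, |f x| ≤ M)
    (hfm : AEMeasurable f volume) (h : limV α f < ⊤) : Continuous f := by
  refine continuous_of_kernel (l := atTop) hα (fun n => perK (vpK n)) (fun n : ℕ => 1 / √(n : ℝ)) ?_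
    tendsto_inv_sqrt (Eventually.of_forall fun n => perK_nonneg (vpK_nonneg n))
    (Eventually.of_forall fun n => perK_integrable (vpK_continuous n))
    (Eventually.of_forall fun n => by rw [perK_integral, vpK_integral])
    (fun η hη => vp_tail_tendsto hη) (fun R _ => vp_low) hf hfm (fun n => V n f)
    (Eventually.of_forall fun n x => V_eq n f x) ?_
  · filter_upwards [eventually_gt_atTop 0] with n hn
    have : (0 : ℝ) < n := by exact_mod_cast hn
    positivity
  · refine lt_of_le_of_lt (le_of_eq ?_) h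
    unfold limV
    congr 1
    ext n
    rw [div_div_eq_mul_div, div_one]

/-- For every `α > 0` the three constants `c_W^*`, `c_P^*`, `c_V^*` are equal to `∞`. -/
theorem result : ∀ α : ℝ, 0 < α → cW α = ⊤ ∧ cP α = ⊤ ∧ cV α = ⊤ := by
  intro α hα
  refine ⟨?_, ?_, ?_⟩
  · refine ENNReal.eq_top_of_forall_nnreal_le fun c => le_iSup₂_of_le c ?_ le_rfl
    intro f hf hfm h
    exact continuous_W hα hf hfm.aemeasurable (h.trans ENNReal.coe_lt_top)
  · refine ENNReal.eq_top_of_forall_nnreal_le fun c => le_iSup₂_of_le c ?_ le_rfl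
    intro f hf hfm _ h
    exact continuous_P hα hf hfm.aemeasurable (h.trans ENNReal.coe_lt_top)
  · refine ENNReal.eq_top_of_forall_nnreal_le fun c => le_iSup₂_of_le c ?_ le_rfl
    intro f hf hfm _ h
    exact continuous_V hα hf hfm.aemeasurable (h.trans ENNReal.coe_lt_top)

end Pool.Agent.Results.MP_fbd0a7_an.Infinite
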